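import Pool.Agent.Lib.H17U.PDefs

set_option autoImplicit false

/-!
Chunk F1 (M). Global solutions of `γ' = v γ` for a bounded Lipschitz vector field.
Proof. Uniqueness: `ODE_solution_unique_univ` or `ODE_solution_unique_of_mem_Ioo`. For every `N : ℕ` Picard-Lindelöf on `[-N, N]`:
`IsPicardLindelof (fun _ => v) 0 y a 0 L K` with `L = C`, `a = C N + 1`, `K` holds because `v` is bounded by `C` on the whole space
(`IsPicardLindelof.exists_eq_forall_mem_Icc_hasDerivWithinAt₀`, in `Mathlib/Analysis/ODE/ExistUnique.lean`). The solutions for different `N` agree on the smaller open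
interval; glue: `γ t = γ_N t` with `N = ⌈|t|⌉ + 1`.
-/

open MeasureTheory Filter Topology Set
open scoped ContDiff NNReal

namespace NullU

theorem F1_wint {D : ℝ} (hD : 0 < D) (t : ℝ) :
    |∫ s in (0 : ℝ)..t, Real.exp (D * |s|)| ≤ Real.exp (D * |t|) / D := by
  have key : ∀ c : ℝ, c ≠ 0 → ∫ s in (0 : ℝ)..t, Real.exp (c * s) =
      Real.exp (c * t) / c - Real.exp (c * 0) / c := by
    intro c hc
    apply intervalIntegral.integral_eq_sub_of_hasDerivAt
    · intro s _
      have h1 : HasDerivAt (fun s : ℝ => Real.exp (c * s) / c) (Real.exp (c * s) * (c * 1) / c) s :=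
        ((hasDerivAt_id s).const_mul c).exp.div_const c
      have h2 : Real.exp (c * s) * (c * 1) / c = Real.exp (c * s) := by
        rw [mul_one, mul_div_assoc, div_self hc, mul_one]
      rw [h2] at h1
      exact h1
    · exact (by fun_prop : Continuous fun s : ℝ => Real.exp (c * s)).intervalIntegrable _ _
  rcases le_total 0 t with h | h
  · have h1 : ∫ s in (0 : ℝ)..t, Real.exp (D * |s|) = ∫ s in (0 : ℝ)..t, Real.exp (D * s) := by
      apply intervalIntegral.integral_congr
      intro s hs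
      rw [Set.uIcc_of_le h] at hs
      simp only [abs_of_nonneg hs.1]
    rw [h1, key D hD.ne', abs_of_nonneg h, mul_zero, Real.exp_zero, ← sub_div, abs_div,
      abs_of_pos hD]
    have h2 : 1 ≤ Real.exp (D * t) := Real.one_le_exp (by positivity)
    rw [abs_of_nonneg (by linarith)]
    gcongr
    linarith
  · have h1 : ∫ s in (0 : ℝ)..t, Real.exp (D * |s|) = ∫ s in (0 : ℝ)..t, Real.exp (-D * s) := by
      apply intervalIntegral.integral_congr
      intro s hs
      rw [Set.uIcc_of_ge h] at hs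
      simp only [abs_of_nonpos hs.2, mul_neg, neg_mul]
    rw [h1, key (-D) (by linarith), abs_of_nonpos h, mul_zero, Real.exp_zero, ← sub_div, abs_div,
      abs_neg, abs_of_pos hD]
    have h3 : -D * t = D * -t := by ring
    rw [h3]
    have h2 : 1 ≤ Real.exp (D * -t) := Real.one_le_exp (mul_nonneg hD.le (by linarith))
    rw [abs_of_nonneg (by linarith)]
    gcongr
    linarith

/-- Global solutions for a field that is Lipschitz in space and bounded at the origin. -/
theorem glob_gen {F : Type*} [NormedAddCommGroup F] [NormedSpace ℝ F] [CompleteSpace F]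
    {f : ℝ → F → F} {K : ℝ≥0} {M : ℝ} (hf : ∀ t, LipschitzWith K (f t))
    (hc : ∀ x, Continuous (fun t => f t x)) (hM : ∀ t, ‖f t 0‖ ≤ M) (y : F) :
    ∃ γ : ℝ → F, γ 0 = y ∧ ∀ t, HasDerivAt γ (f t (γ t)) t := by
  obtain ⟨D, hD⟩ : ∃ D : ℝ, D = 2 * ((K : ℝ) + 1) := ⟨_, rfl⟩
  have hD0 : 0 < D := by rw [hD]; positivity
  have hM0 : 0 ≤ M := (norm_nonneg _).trans (hM 0)
  obtain ⟨w, hw⟩ : ∃ w : ℝ → ℝ, w = fun t => Real.exp (D * |t|) := ⟨_, rfl⟩
  have hwt : ∀ t, w t = Real.exp (D * |t|) := fun t => by rw [hw]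
  have hw0 : ∀ t, 0 < w t := fun t => by rw [hwt]; exact Real.exp_pos _
  have hwc : Continuous w := by rw [hw]; fun_prop
  have hcont : Continuous (fun p : ℝ × F => f p.1 p.2) := by
    have h1 : Continuous (fun p : F × ℝ => f p.2 p.1) :=
      continuous_prod_of_continuous_lipschitzWith (fun p : F × ℝ => f p.2 p.1) K
        (fun x => hc x) (fun t => hf t)
    exact h1.comp continuous_swap
  let G : BoundedContinuousFunction ℝ F → ℝ → F := fun V s => f s (w s • V s)
  have hG : ∀ V, Continuous (G V) := fun V =>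
    hcont.comp (continuous_id.prodMk (hwc.smul V.continuous))
  let P : BoundedContinuousFunction ℝ F → ℝ → F := fun V t =>
    (w t)⁻¹ • (y + ∫ s in (0 : ℝ)..t, G V s)
  have hPc : ∀ V, Continuous (P V) := fun V =>
    (hwc.inv₀ (fun t => (hw0 t).ne')).smul (continuous_const.add
      (intervalIntegral.continuous_primitive (fun a b => (hG V).intervalIntegrable a b) 0))
  have hint : ∀ t, |∫ s in (0 : ℝ)..t, w s| ≤ w t / D := by
    intro t
    have := F1_wint hD0 t
    rw [hw]
    exact this
  have hdiff : ∀ V U t, ‖P V t - P U t‖ ≤ 1 / 2 * dist V U := by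
    intro V U t
    have e1 : P V t - P U t = (w t)⁻¹ • ∫ s in (0 : ℝ)..t, (G V s - G U s) := by
      show (w t)⁻¹ • (y + ∫ s in (0 : ℝ)..t, G V s) - (w t)⁻¹ • (y + ∫ s in (0 : ℝ)..t, G U s) = _
      rw [intervalIntegral.integral_sub ((hG V).intervalIntegrable _ _)
        ((hG U).intervalIntegrable _ _), ← smul_sub]
      congr 1
      abel
    have e2 : ∀ s, ‖G V s - G U s‖ ≤ (K : ℝ) * dist V U * w s := by
      intro s
      have h1 := (hf s).dist_le_mul (w s • V s) (w s • U s)
      rw [dist_eq_norm, dist_smul₀, Real.norm_of_nonneg (hw0 s).le] at h1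
      have h2 : dist (V s) (U s) ≤ dist V U := BoundedContinuousFunction.dist_coe_le_dist s
      calc ‖G V s - G U s‖ ≤ K * (w s * dist (V s) (U s)) := h1
        _ ≤ K * (w s * dist V U) := by
            have := (hw0 s).le
            gcongr
        _ = _ := by ring
    have e3 : ‖∫ s in (0 : ℝ)..t, (G V s - G U s)‖ ≤
        |∫ s in (0 : ℝ)..t, (K : ℝ) * dist V U * w s| :=
      intervalIntegral.norm_integral_le_abs_of_norm_le
        (Eventually.of_forall fun s => e2 s)
        ((continuous_const.mul hwc).intervalIntegrable _ _)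
    rw [intervalIntegral.integral_const_mul, abs_mul, abs_of_nonneg (by positivity)] at e3
    rw [e1, norm_smul, Real.norm_of_nonneg (inv_nonneg.2 (hw0 t).le)]
    calc (w t)⁻¹ * ‖∫ s in (0 : ℝ)..t, (G V s - G U s)‖
        ≤ (w t)⁻¹ * ((K : ℝ) * dist V U * (w t / D)) := by
          have h1 := hint t
          have := (hw0 t).le
          gcongr
          exact e3.trans (by gcongr)
      _ = K / D * dist V U := by
          have := (hw0 t).ne'
          field_simp
      _ ≤ 1 / 2 * dist V U := by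
          apply mul_le_mul_of_nonneg_right _ dist_nonneg
          rw [div_le_iff₀ hD0, hD]
          linarith
  have hb0 : ∀ t, ‖P 0 t‖ ≤ ‖y‖ + M / D := by
    intro t
    have h1 : ‖∫ s in (0 : ℝ)..t, G 0 s‖ ≤ M * |t - 0| := by
      apply intervalIntegral.norm_integral_le_of_norm_le_const
      intro s _
      have : G 0 s = f s 0 := by
        show f s (w s • (0 : BoundedContinuousFunction ℝ F) s) = f s 0
        simp
      rw [this]
      exact hM s
    rw [sub_zero] at h1
    have h2 : 1 + D * |t| ≤ w t := by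
      rw [hwt]
      have := Real.add_one_le_exp (D * |t|)
      linarith
    have h3 : 0 ≤ D * |t| := by positivity
    show ‖(w t)⁻¹ • (y + ∫ s in (0 : ℝ)..t, G 0 s)‖ ≤ _
    rw [norm_smul, Real.norm_of_nonneg (inv_nonneg.2 (hw0 t).le), inv_mul_le_iff₀ (hw0 t)]
    have h4 : ‖y + ∫ s in (0 : ℝ)..t, G 0 s‖ ≤ ‖y‖ + M * |t| :=
      (norm_add_le _ _).trans (by linarith)
    refine h4.trans ?_
    have h5 : ‖y‖ ≤ w t * ‖y‖ := le_mul_of_one_le_left (norm_nonneg _) (by linarith)
    have h6 : M * |t| ≤ w t * (M / D) := by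
      have h7 : M * |t| = D * |t| * (M / D) := by field_simp
      rw [h7]
      apply mul_le_mul_of_nonneg_right _ (by positivity)
      linarith
    linarith
  have hb : ∀ V t, ‖P V t‖ ≤ 1 / 2 * dist V 0 + (‖y‖ + M / D) := by
    intro V t
    have h1 := hdiff V 0 t
    have h2 := hb0 t
    have h3 : ‖P V t‖ ≤ ‖P V t - P 0 t‖ + ‖P 0 t‖ := by
      have := norm_add_le (P V t - P 0 t) (P 0 t)
      rwa [sub_add_cancel] at this
    linarith
  let Φ : BoundedContinuousFunction ℝ F → BoundedContinuousFunction ℝ F := fun V =>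
    BoundedContinuousFunction.ofNormedAddCommGroup (P V) (hPc V) _ (hb V)
  have hΦ : ContractingWith (1 / 2) Φ := by
    refine ⟨by norm_num, LipschitzWith.of_dist_le_mul fun V U => ?_⟩
    rw [BoundedContinuousFunction.dist_le (by positivity)]
    intro t
    have h1 := hdiff V U t
    rw [dist_eq_norm]
    have h2 : (((1 / 2 : ℝ≥0)) : ℝ) = 1 / 2 := by norm_num
    rw [h2]
    exact h1
  let V := hΦ.fixedPoint
  have hV : Φ V = V := hΦ.fixedPoint_isFixedPt
  have hVt : ∀ t, w t • V t = y + ∫ s in (0 : ℝ)..t, G V s := by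
    intro t
    have h1 : P V t = V t := congrArg (fun U : BoundedContinuousFunction ℝ F => U t) hV
    rw [← h1]
    show w t • (w t)⁻¹ • (y + ∫ s in (0 : ℝ)..t, G V s) = _
    rw [smul_smul, mul_inv_cancel₀ (hw0 t).ne', one_smul]
  refine ⟨fun t => w t • V t, ?_, fun t => ?_⟩
  · show w 0 • V 0 = y
    rw [hVt, intervalIntegral.integral_same, add_zero]
  · have h1 : HasDerivAt (fun t => y + ∫ s in (0 : ℝ)..t, G V s) (G V t) t :=
      ((hG V).integral_hasStrictDerivAt 0 t).hasDerivAt.const_add y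
    have h2 : (fun t => w t • V t) = fun t => y + ∫ s in (0 : ℝ)..t, G V s := funext hVt
    rw [h2]
    have h3 : f t (y + ∫ s in (0 : ℝ)..t, G V s) = G V t := by
      rw [← hVt]
    rw [h3]
    exact h1

theorem glob {E : Type*} [NormedAddCommGroup E] [NormedSpace ℝ E] [CompleteSpace E] {v : E → E} {K : ℝ≥0} {C : ℝ}
    (hv : LipschitzWith K v) (h0 : ∀ x, ‖v x‖ ≤ C) (y : E) :
    ∃ γ : ℝ → E, γ 0 = y ∧ ∀ t, HasDerivAt γ (v (γ t)) t :=
  glob_gen (f := fun _ => v) (fun _ => hv) (fun _ => continuous_const) (fun _ => h0 0) y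

end NullU
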