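import Mathlib

set_option autoImplicit false

/-!
H17U, planar part: definitions. See PROOF.md, section 3. The norm of `ℝ × ℝ` is the sup norm.
-/

open MeasureTheory Filter Topology Set
open scoped ContDiff

namespace NullU

/-- First partial derivative in the plane. -/
noncomputable def d1 (u : ℝ × ℝ → ℝ) (x : ℝ × ℝ) : ℝ := fderiv ℝ u x (1, 0)

/-- Second partial derivative in the plane. -/
noncomputable def d2 (u : ℝ × ℝ → ℝ) (x : ℝ × ℝ) : ℝ := fderiv ℝ u x (0, 1)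

/-- Curl of the one-form `(a, b)`. -/
noncomputable def cu (a b : ℝ × ℝ → ℝ) (x : ℝ × ℝ) : ℝ := d1 b x - d2 a x

/-- Flow of a vector field with its derivative with respect to the initial point. -/
structure IsFlow {E : Type*} [NormedAddCommGroup E] [NormedSpace ℝ E] (v : E → E) (φ : ℝ → E → E)
    (W : ℝ → E → E →L[ℝ] E) : Prop where
  zero : ∀ y, φ 0 y = y
  der : ∀ t y, HasDerivAt (fun s => φ s y) (v (φ t y)) t
  add : ∀ s t y, φ (s + t) y = φ s (φ t y)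
  cont : Continuous (fun p : ℝ × E => φ p.1 p.2)
  W_zero : ∀ y, W 0 y = ContinuousLinearMap.id ℝ E
  W_der : ∀ t y, HasDerivAt (fun s => W s y) ((fderiv ℝ v (φ t y)).comp (W t y)) t
  fd : ∀ t y, HasFDerivAt (φ t) (W t y) y
  W_cont : Continuous (fun p : ℝ × E => W p.1 p.2)

/-- The vector field with `η¹ v = 1`, `η² v = 0`, where `η¹ = (a, b)`, `η² = (c, d)`. -/
noncomputable def vv (a b c d : ℝ × ℝ → ℝ) (x : ℝ × ℝ) : ℝ × ℝ :=
  (d x / (a x * d x - b x * c x), - c x / (a x * d x - b x * c x))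

/-- Orbits `t ↦ X q t` of `vv`, starting at `(-5 R, q)`; `Y` is the derivative of `X` with respect to `q`. The frame is the standard
frame outside the square of radius `2 R`. -/
structure Orb (R : ℝ) (a b c d : ℝ × ℝ → ℝ) (X Y : ℝ → ℝ → ℝ × ℝ) : Prop where
  R_pos : 0 < R
  sa : ContDiff ℝ ∞ a
  sb : ContDiff ℝ ∞ b
  sc : ContDiff ℝ ∞ c
  sd : ContDiff ℝ ∞ d
  det : ∀ x, 0 < a x * d x - b x * c x
  out : ∀ x, 2 * R ≤ ‖x‖ → a x = 1 ∧ b x = 0 ∧ c x = 0 ∧ d x = 1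
  init : ∀ q, X q 0 = (-5 * R, q)
  initY : ∀ q, Y q 0 = (0, 1)
  dt : ∀ q t, HasDerivAt (fun s => X q s) (vv a b c d (X q t)) t
  dq : ∀ q t, HasDerivAt (fun r => X r t) (Y q t) q
  dtY : ∀ q t, HasDerivAt (fun s => Y q s) (fderiv ℝ (vv a b c d) (X q t) (Y q t)) t
  cX : Continuous (fun p : ℝ × ℝ => X p.1 p.2)
  cY : Continuous (fun p : ℝ × ℝ => Y p.1 p.2)

/-- The Jacobian of `(q, t) ↦ X q t` (orientation `(t, q)`). -/
noncomputable def Jac (a b c d : ℝ × ℝ → ℝ) (X Y : ℝ → ℝ → ℝ × ℝ) (q t : ℝ) : ℝ :=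
  (vv a b c d (X q t)).1 * (Y q t).2 - (vv a b c d (X q t)).2 * (Y q t).1

/-- `η² (Y)`. -/
noncomputable def jj (c d : ℝ × ℝ → ℝ) (X Y : ℝ → ℝ → ℝ × ℝ) (q t : ℝ) : ℝ :=
  c (X q t) * (Y q t).1 + d (X q t) * (Y q t).2

/-- A smooth family of positively oriented frames of the plane, with parameter `θ`: standard outside the square of radius `2 R`,
standard for `θ ≤ 0`, constant in `θ` for `θ ≥ 1`. -/
structure Fam (R : ℝ) (a b c d : (ℝ × ℝ) × ℝ → ℝ) : Prop where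
  R_pos : 0 < R
  sa : ContDiff ℝ ∞ a
  sb : ContDiff ℝ ∞ b
  sc : ContDiff ℝ ∞ c
  sd : ContDiff ℝ ∞ d
  det : ∀ p, 0 < a p * d p - b p * c p
  out : ∀ x θ, 2 * R ≤ ‖x‖ → a (x, θ) = 1 ∧ b (x, θ) = 0 ∧ c (x, θ) = 0 ∧ d (x, θ) = 1
  zero : ∀ x θ, θ ≤ 0 → a (x, θ) = 1 ∧ b (x, θ) = 0 ∧ c (x, θ) = 0 ∧ d (x, θ) = 1
  one : ∀ x θ, 1 ≤ θ → a (x, θ) = a (x, 1) ∧ b (x, θ) = b (x, 1) ∧ c (x, θ) = c (x, 1) ∧ d (x, θ) = d (x, 1)

/-- The vector field of a family, on the product of the plane and the parameter line. -/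
noncomputable def vf (a b c d : (ℝ × ℝ) × ℝ → ℝ) (p : (ℝ × ℝ) × ℝ) : (ℝ × ℝ) × ℝ :=
  ((d p / (a p * d p - b p * c p), - c p / (a p * d p - b p * c p)), 0)

/-- Orbits for the parameter `θ`. -/
def orX (φ : ℝ → (ℝ × ℝ) × ℝ → (ℝ × ℝ) × ℝ) (R θ q t : ℝ) : ℝ × ℝ := (φ t ((-5 * R, q), θ)).1

/-- Their derivative with respect to `q`. -/
def orY (W : ℝ → (ℝ × ℝ) × ℝ → (ℝ × ℝ) × ℝ →L[ℝ] (ℝ × ℝ) × ℝ) (R θ q t : ℝ) : ℝ × ℝ :=
  (W t ((-5 * R, q), θ) ((0, 1), 0)).1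

end NullU
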